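import Pool.Agent.helper14.AV.Spec

/-!
# Row EAP of project AV
-/

set_option autoImplicit false

namespace Pool.Agent.helper14.AV

theorem EAP : EAP_stmt := by
  intro α l m t
  induction l with
  | nil => simp [edges]
  | cons x l ih =>
    cases l with
    | nil => simp [edges]
    | cons y l =>
      simp only [List.cons_append, edges] at ih ⊢
      rw [ih]

end Pool.Agent.helper14.AV
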